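import Mathlib

set_option autoImplicit false

namespace Pool.Agent.Results.MP_03a7fb_al.Example

open MvPowerSeries

abbrev S := MvPowerSeries (Fin 4) ℂ

noncomputable def J : S := C Complex.I
noncomputable def u : S := X 0 + J * X 1
noncomputable def v : S := X 0 - J * X 1
noncomputable def w : S := X 2 + J * X 3
noncomputable def g : S := (1 - u)⁻¹
noncomputable def P : S := g - 1 - u - u ^ 2 + v * w ^ 2

lemma J_sq : J ^ 2 = -1 := by rw [J, ← map_pow, Complex.I_sq, map_neg, map_one]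
lemma dJ (i : Fin 4) : pderiv ℂ i J = 0 := pderiv_C
lemma smul_J (x : S) : Complex.I • x = J * x := by rw [J, smul_eq_C_mul]
lemma dJm (i : Fin 4) (x : S) : pderiv ℂ i (J * x) = J * pderiv ℂ i x := by simp [dJ]
@[simp] lemma d_ofNat (D : Derivation ℂ S S) (n : ℕ) [n.AtLeastTwo] : D (ofNat(n) : S) = 0 :=
  D.map_natCast n
lemma coe_sub' (p q : MvPolynomial (Fin 4) ℂ) : ((p - q : MvPolynomial (Fin 4) ℂ) : S) = p - q :=
  MvPolynomial.coeToMvPowerSeries.ringHom.map_sub p q
lemma cu : constantCoeff u = 0 := by simp [u]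
lemma cv : constantCoeff v = 0 := by simp [v]
lemma cw : constantCoeff w = 0 := by simp [w]
lemma g_mul : g * (1 - u) = 1 := MvPowerSeries.inv_mul_cancel _ (by simp [cu])
lemma du (i : Fin 4) : pderiv ℂ i u = ![1, J, 0, 0] i := by
  fin_cases i <;> simp [u, dJ]
lemma dv (i : Fin 4) : pderiv ℂ i v = ![1, -J, 0, 0] i := by
  fin_cases i <;> simp [v, dJ]
lemma dw (i : Fin 4) : pderiv ℂ i w = ![0, 0, 1, J] i := by
  fin_cases i <;> simp [w, dJ]
lemma dg (D : Derivation ℂ S S) : D g = g ^ 2 * D u := by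
  rw [D.leibniz_of_mul_eq_one g_mul]; simp

lemma d_comm (i j : Fin 4) (f : S) : pderiv ℂ i (pderiv ℂ j f) = pderiv ℂ j (pderiv ℂ i f) := by
  ext n
  simp only [coeff_pderiv]
  by_cases h : i = j
  · rw [h]
  · rw [add_right_comm]
    simp [h, Ne.symm h]
    ring

noncomputable def A : Derivation ℂ S S := pderiv ℂ 0 - Complex.I • pderiv ℂ 1
noncomputable def B : Derivation ℂ S S := pderiv ℂ 0 + Complex.I • pderiv ℂ 1
noncomputable def E : Derivation ℂ S S := pderiv ℂ 2 - Complex.I • pderiv ℂ 3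
noncomputable def F : Derivation ℂ S S := pderiv ℂ 2 + Complex.I • pderiv ℂ 3

lemma Au : A u = 2 := by simp [A, du, smul_J]; linear_combination -J_sq
lemma Av : A v = 0 := by simp [A, dv, smul_J]; linear_combination J_sq
lemma Aw : A w = 0 := by simp [A, dw]
lemma Bu : B u = 0 := by simp [B, du, smul_J]; linear_combination J_sq
lemma Bv : B v = 2 := by simp [B, dv, smul_J]; linear_combination -J_sq
lemma Bw : B w = 0 := by simp [B, dw]
lemma Fu : F u = 0 := by simp [F, du]
lemma Fv : F v = 0 := by simp [F, dv]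
lemma Fw : F w = 0 := by simp [F, dw, smul_J]; linear_combination J_sq
lemma BP : B P = 2 * w ^ 2 := by simp [P, dg, Bu, Bv, Bw, mul_comm]
lemma FP : F P = 0 := by simp [P, dg, Fu, Fv, Fw]

lemma lap (x : S) : ∑ i, pderiv ℂ i (pderiv ℂ i x) = A (B x) + E (F x) := by
  simp only [Fin.sum_univ_four, A, B, E, F, Derivation.add_apply, Derivation.sub_apply,
    Derivation.smul_apply, map_add, dJm, smul_J, d_comm 1 0, d_comm 3 2]
  linear_combination (pderiv ℂ 1 (pderiv ℂ 1 x) + pderiv ℂ 3 (pderiv ℂ 3 x)) * J_sq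

lemma FA (x : S) : F (A x) = A (F x) := by
  simp only [A, F, Derivation.add_apply, Derivation.sub_apply, Derivation.smul_apply, map_add,
    map_sub, dJm, smul_J, d_comm 2, d_comm 3]
  ring

lemma FB (x : S) : F (B x) = B (F x) := by
  simp only [B, F, Derivation.add_apply, Derivation.smul_apply, map_add,
    dJm, smul_J, d_comm 2, d_comm 3]
  ring

lemma AB (x : S) : A (B x) = B (A x) := by
  simp only [A, B, Derivation.add_apply, Derivation.sub_apply, Derivation.smul_apply, map_add,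
    map_sub, dJm, smul_J, d_comm 1 0]
  ring

lemma lap_iter (m : ℕ) (x : S) (hx : F x = 0) :
    (fun Q : S => ∑ i, pderiv ℂ i (pderiv ℂ i Q))^[m] x = A^[m] (B^[m] x) := by
  induction m generalizing x with
  | zero => rfl
  | succ m ih =>
    rw [Function.iterate_succ_apply, lap, hx, map_zero, add_zero, ih _ (by
      rw [FA, FB, hx, map_zero, map_zero]), Function.iterate_succ_apply,
      Function.iterate_succ_apply]
    congr 1
    exact ((Function.Commute.iterate_right (f := A) (g := B) AB m) _).symm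

lemma iter_mul (D : Derivation ℂ S S) (c : S) (hc : D c = 0) (m : ℕ) (x : S) :
    D^[m] (c * x) = c * D^[m] x := by
  induction m with
  | zero => rfl
  | succ m ih => simp [Function.iterate_succ_apply', ih, hc]

lemma B_iter (m n : ℕ) : ∃ c : ℕ, c ≠ 0 ∧ B^[m] (P ^ (n + m)) = c * w ^ (2 * m) * P ^ n := by
  induction m with
  | zero => exact ⟨1, one_ne_zero, by simp⟩
  | succ m ih =>
    obtain ⟨c, hc, h⟩ := ih
    refine ⟨c * (2 * (n + m + 1)), by positivity, ?_⟩
    have : B (P ^ (n + (m + 1))) = (((n + m + 1 : ℕ) : S) * (2 * w ^ 2)) * P ^ (n + m) := by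
      rw [Derivation.leibniz_pow, BP]; simp; ring
    rw [Function.iterate_succ_apply, this, iter_mul _ _ (by simp [Bw]), h]
    push_cast
    ring

lemma A_iter (m : ℕ) : ∃ c : ℕ, c ≠ 0 ∧ A^[m + 3] P = c * g ^ (m + 4) := by
  induction m with
  | zero =>
    refine ⟨48, by norm_num, ?_⟩
    have h1 : A P = 2 * g ^ 2 - 2 - 4 * u := by simp [P, dg, Au, Av, Aw]; ring
    have h2 : A (A P) = 8 * g ^ 3 - 8 := by simp [h1, dg, Au]; ring
    change A (A (A P)) = _
    simp [h2, dg, Au]
    ring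
  | succ m ih =>
    obtain ⟨c, hc, h⟩ := ih
    refine ⟨c * (2 * (m + 4)), by positivity, ?_⟩
    rw [add_right_comm, Function.iterate_succ_apply', h]
    simp [dg, Au]
    ring

lemma hess : (Matrix.of fun i j => pderiv ℂ i (pderiv ℂ j P)) =
    !![2 * g ^ 3 - 2, J * (2 * g ^ 3 - 2), 2 * w, 2 * w * J;
      J * (2 * g ^ 3 - 2), -(2 * g ^ 3 - 2), -(2 * w * J), 2 * w;
      2 * w, -(2 * w * J), 2 * v, 2 * v * J;
      2 * w * J, 2 * w, 2 * v * J, -(2 * v)] := by
  have := J_sq
  ext1 i j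
  fin_cases i <;> fin_cases j <;> simp [P, dg, du, dv, dw, dJ] <;> grind

/-- A Hessian nilpotent power series of order at least `3` that is not a polynomial and has
`Δ^m P^(m+1) ≠ 0` for all `m ≥ 3`. -/
theorem result : ∃ (n : ℕ) (P : MvPowerSeries (Fin n) ℂ), 1 ≤ n ∧
    (∀ p : MvPolynomial (Fin n) ℂ, (p : MvPowerSeries (Fin n) ℂ) ≠ P) ∧ 3 ≤ P.order ∧
    IsNilpotent (Matrix.of fun i j => pderiv ℂ i (pderiv ℂ j P)) ∧
    ∀ m : ℕ, 3 ≤ m →
      (fun Q : MvPowerSeries (Fin n) ℂ => ∑ i, pderiv ℂ i (pderiv ℂ i Q))^[m] (P ^ (m + 1)) ≠ 0 := by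
  have hP : P = u ^ 3 * g + v * w ^ 2 := by
    rw [P]; linear_combination (1 + u + u ^ 2) * g_mul
  refine ⟨4, P, by norm_num, fun p hp => ?_, ?_, ⟨4, ?_⟩, fun m hm => ?_⟩
  · have h : p * (1 - (.X 0 + .C Complex.I * .X 1)) = (.X 0 + .C Complex.I * .X 1) ^ 3 +
        (.X 0 - .C Complex.I * .X 1) * (.X 2 + .C Complex.I * .X 3) ^ 2 *
          (1 - (.X 0 + .C Complex.I * .X 1)) := by
      apply MvPolynomial.coe_injective
      have : P * (1 - u) = u ^ 3 + v * w ^ 2 * (1 - u) := by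
        rw [hP]; linear_combination u ^ 3 * g_mul
      rw [← hp] at this
      simpa [u, v, w, J, coe_sub'] using this
    have := congrArg (MvPolynomial.eval ![1, 0, 0, 0]) h
    simp at this
  · have o : ∀ x : S, constantCoeff x = 0 → 1 ≤ x.order := fun x hx =>
      one_le_order_iff_constCoeff_eq_zero.mpr hx
    rw [hP]
    refine le_trans (le_min ?_ ?_) min_order_le_add
    · exact (le_order_pow_of_constantCoeff_eq_zero 3 cu).trans (le_self_add.trans le_order_mul)
    · exact le_trans (add_le_add (o _ cv) (le_order_pow_of_constantCoeff_eq_zero 2 cw))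
        le_order_mul
  · have := J_sq
    rw [hess]
    ext1 i j
    fin_cases i <;> fin_cases j <;> simp [pow_succ, Matrix.mul_apply, Fin.sum_univ_four] <;> grind
  · obtain ⟨k, rfl⟩ := Nat.exists_eq_add_of_le' hm
    obtain ⟨c, hc, h1⟩ := B_iter (k + 3) 1
    obtain ⟨d, hd, h2⟩ := A_iter k
    rw [lap_iter _ _ (by simp [FP]), add_comm _ 1, h1, iter_mul _ _ (by simp [Aw]), pow_one, h2]
    have hw : w ≠ 0 := fun h => by simpa [h] using dw 2
    have hg : g ≠ 0 := left_ne_zero_of_mul_eq_one g_mul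
    have hn : ∀ n : ℕ, n ≠ 0 → (n : S) ≠ 0 := fun n hn h => hn (by
      simpa using congrArg constantCoeff h)
    exact mul_ne_zero (mul_ne_zero (hn _ hc) (pow_ne_zero _ hw))
      (mul_ne_zero (hn _ hd) (pow_ne_zero _ hg))

end Pool.Agent.Results.MP_03a7fb_al.Example
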